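import Pool.Agent.Q288.AP.Blk

/-!
# The Alperin–McKay–Navarro conjecture: approximate equality of fixed point numbers suffices

For odd `p` and groups `Γ` of field automorphisms acting with odd order, equivariant bijections
`Irr₀(B) → Irr₀(b)` exist for all blocks if the numbers of fixed characters agree up to a factor
`C_ε |D|^ε` for every `ε > 0`: in the iterated wreath products with `C₂` a ratio different from one
grows faster than every such factor.
-/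

set_option autoImplicit false

namespace Pool.Agent.Results.MP_7f1e7e_al.ApproximateEqualityDecides

open Pool.Agent.Q259.BW Pool.Agent.Q288.AP

/-- The automorphisms which act on the `m`-th roots of unity, for every `m` prime to `p`, as
`ξ ↦ ξ ^ (p ^ e)` for some `e ≥ 0`: those with restrictions in Navarro's group `𝓗`. -/
def NavarroH (p : ℕ) : Set (ℂ ≃+* ℂ) :=
  {σ | ∀ m : ℕ, ¬ p ∣ m → ∃ e : ℕ, ∀ ξ : ℂ, ξ ^ m = 1 → σ ξ = ξ ^ p ^ e}

/-- Let `p` be an odd prime. (1) Let `B` be a `p`-block with defect group `D ≠ 1` and Brauer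
correspondent `b`, and `Γ` a group of field automorphisms stabilising `B` and `b` of which every
element acts with odd order on the characters of height zero. There is a `Γ`-equivariant bijection
`Irr₀(B) → Irr₀(b)` if and only if for all subgroups `Δ` of `Γ` and all `ε > 0` there is a `C` such
that for all `j` the numbers of `Δ`-fixed characters of height zero in the two blocks obtained in the
`j`-fold iterated wreath products with `C₂` agree up to the factor `C |D|^(ε 2^j)`.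
(2) Such bijections exist for all blocks `B` and all such `Γ` in Navarro's group `𝓗` if and only if
for every `ε > 0` there is a `C` such that for all of them the numbers of `Γ`-fixed characters in
`Irr₀(B)` and `Irr₀(b)` agree up to the factor `C |D|^ε`. -/
theorem result (p : ℕ) [Fact p.Prime] (hp2 : p ≠ 2) (O : ValuationSubring ℂ)
    (hpO : (p : ℂ) ∈ O.nonunits) :
    (∀ X : Dat, X.IsBrauer p O → X.D ≠ ⊥ → ∀ Γ : Subgroup (ℂ ≃+* ℂ),
      X.Adm p (Γ : Set (ℂ ≃+* ℂ)) →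
      (∀ j : ℕ, (Dat.wr^[j] X).IsBrauer p O ∧ Nat.card (Dat.wr^[j] X).D = Nat.card X.D ^ 2 ^ j) ∧
      (X.Bij p Γ ↔ ∀ Δ : Subgroup (ℂ ≃+* ℂ), Δ ≤ Γ → ∀ ε : ℝ, 0 < ε → ∃ C : ℝ, ∀ j : ℕ,
        Near C ε (Nat.card (Dat.wr^[j] X).D)
          (Nat.card (Fx (Δ : Set (ℂ ≃+* ℂ)) ((Dat.wr^[j] X).ht0 p)))
          (Nat.card (Fx (Δ : Set (ℂ ≃+* ℂ)) ((Dat.wr^[j] X).ht0' p))))) ∧
    ((∀ X : Dat, X.IsBrauer p O → ∀ Γ : Subgroup (ℂ ≃+* ℂ),
      (Γ : Set (ℂ ≃+* ℂ)) ⊆ NavarroH p → X.Adm p (Γ : Set (ℂ ≃+* ℂ)) → X.Bij p Γ) ↔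
    ∀ ε : ℝ, 0 < ε → ∃ C : ℝ, ∀ X : Dat, X.IsBrauer p O → ∀ Γ : Subgroup (ℂ ≃+* ℂ),
      (Γ : Set (ℂ ≃+* ℂ)) ⊆ NavarroH p → X.Adm p (Γ : Set (ℂ ≃+* ℂ)) →
      Near C ε (Nat.card X.D) (Nat.card (Fx (Γ : Set (ℂ ≃+* ℂ)) (X.ht0 p)))
        (Nat.card (Fx (Γ : Set (ℂ ≃+* ℂ)) (X.ht0' p)))) := by
  refine ⟨fun X hX hne Γ hS => ⟨fun j => ⟨(levels_prop hp2 hpO _ j X hX hne hS).1, card_D X j⟩, ?_⟩,
    ?_, ?_⟩
  · rw [bij_iff X hX Γ hS]
    constructor
    · intro h Δ hΔ ε hε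
      exact ⟨1, fun j => near_of_eq hp2 hpO _ X hX hne (hS.mono hΔ) (h Δ hΔ) hε j⟩
    · intro h Δ hΔ
      exact tower hp2 hpO _ X hX hne (hS.mono hΔ) (h Δ hΔ)
  · intro h ε hε
    refine ⟨1, fun X hX Γ hΓ hS => ?_⟩
    have := hX.fin
    rw [(bij_iff X hX Γ hS).mp (h X hX Γ hΓ hS) Γ le_rfl]
    exact near_self hε.le (Nat.one_le_iff_ne_zero.2 Nat.card_pos.ne') _
  · intro h X hX Γ hΓ hS
    rw [bij_iff X hX Γ hS]
    intro Δ hΔ
    rcases eq_or_ne X.D ⊥ with hD | hne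
    · exact num_bot hX hD Δ
    · apply tower hp2 hpO _ X hX hne (hS.mono hΔ)
      intro ε hε
      obtain ⟨C, hC⟩ := h ε hε
      refine ⟨C, fun j => ?_⟩
      obtain ⟨h1, -, h3⟩ := levels_prop hp2 hpO (Δ : Set (ℂ ≃+* ℂ)) j X hX hne (hS.mono hΔ)
      exact hC _ h1 Δ (Set.Subset.trans hΔ hΓ) h3

end Pool.Agent.Results.MP_7f1e7e_al.ApproximateEqualityDecides
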