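import Pool.Agent.Q288.MB.Par

/-!
# Alperin–McKay–Navarro reduces to blocks with an odd number of Galois conjugates

`O` is a valuation subring of `ℂ` whose maximal ideal contains `p`; it defines the `p`-blocks of
finite groups. Let `σ(B) ≠ B` be a Galois conjugate of the `p`-block `B` of `G`. The characters of
`G ≀ C₂` induced from products of a character in `B` and one in `σ(B)` form a block. A field
automorphism which stabilises `B` stabilises the new block, and it fixes the character induced from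
`θ₁ × θ₂` if and only if it fixes `θ₁` and `θ₂`. If `σ²(B) = B`, the new block has fewer Galois
conjugates than `B`.
-/

set_option autoImplicit false

namespace Pool.Agent.Results.MP_7f1e7e_al.OddlyManyConjugates

open Pool.Agent.Q259.BW Pool.Agent.Q288.MB

/-- Let `p` be a prime. (1) Let `B` be a `p`-block with Brauer correspondent `b`, `σ` a field
automorphism of `ℂ` with `σ(B) ≠ B` and `Γ` a group of field automorphisms stabilising `B`. The set
of characters of `G ≀ C₂` obtained from `B` and `σ(B)` is a block, the one obtained from `b` and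
`σ(b)` is its Brauer correspondent, `Γ` stabilises it, and there is a `Γ`-equivariant bijection
`Irr₀(B) → Irr₀(b)` if and only if there is one for these two blocks; if `σ(σ(B)) = B`, the new block
has fewer Galois conjugates than `B`.
(2) In every class of groups closed under `G ↦ G ≀ C₂`: the Alperin–McKay–Navarro conjecture
(bijections equivariant under the stabiliser of `B` in Navarro's group `𝓗`) holds for all `p`-blocks
if and only if it holds for those which are closed under complex conjugation and have an odd number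
of Galois conjugates.
(3) If `p` is odd: in every such class, `Γ`-equivariant bijections exist for all `p`-blocks and all
groups `Γ ≤ 𝓗` stabilising `B` and `b` of which every element acts with odd order on the characters
of height zero, if and only if for the blocks in (2) and these `Γ` the numbers of the `Γ`-fixed
characters with an odd number of Galois conjugates in `Irr₀(B)` and in `Irr₀(b)` have the same
parity. -/
theorem result (p : ℕ) [Fact p.Prime] (O : ValuationSubring ℂ) (hpO : (p : ℂ) ∈ O.nonunits) :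
    (∀ X : Dat, X.IsBrauer p O → ∀ σ : ℂ ≃+* ℂ, gal σ X.B ≠ X.B →
      ∀ Γ : Subgroup (ℂ ≃+* ℂ), (∀ τ ∈ Γ, gal τ X.B = X.B) →
        (mix σ X).IsBrauer p O ∧ (∀ τ ∈ Γ, gal τ (mix σ X).B = (mix σ X).B) ∧
        (X.Bij p (Γ : Set (ℂ ≃+* ℂ)) ↔ (mix σ X).Bij p (Γ : Set (ℂ ≃+* ℂ))) ∧
        (gal σ (gal σ X.B) = X.B → numConj (mix σ X).B < numConj X.B)) ∧
    (∀ P : ∀ (G : Type) [Group G], Prop, Closed P →
      ((∀ X : Dat, X.IsBrauer p O → P X.G → X.Bij p (HB p X : Set (ℂ ≃+* ℂ))) ↔
        ∀ X : Dat, X.IsBrauer p O → P X.G →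
          (∀ χ ∈ X.B, (fun g => starRingEnd ℂ (χ g)) ∈ X.B) → Odd (numConj X.B) →
            X.Bij p (HB p X : Set (ℂ ≃+* ℂ)))) ∧
    (p ≠ 2 → ∀ P : ∀ (G : Type) [Group G], Prop, Closed P →
      ((∀ X : Dat, X.IsBrauer p O → P X.G → ∀ Γ : Subgroup (ℂ ≃+* ℂ), Γ ≤ navarro p →
          X.Adm p (Γ : Set (ℂ ≃+* ℂ)) → X.Bij p (Γ : Set (ℂ ≃+* ℂ))) ↔
        ∀ X : Dat, X.IsBrauer p O → P X.G →
          (∀ χ ∈ X.B, (fun g => starRingEnd ℂ (χ g)) ∈ X.B) → Odd (numConj X.B) →
            ∀ Γ : Subgroup (ℂ ≃+* ℂ), Γ ≤ navarro p → X.Adm p (Γ : Set (ℂ ≃+* ℂ)) →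
              Nat.card (FxOdd (Γ : Set (ℂ ≃+* ℂ)) (X.ht0 p)) ≡
                Nat.card (FxOdd (Γ : Set (ℂ ≃+* ℂ)) (X.ht0' p)) [MOD 2])) := by
  refine ⟨fun X hX σ h Γ hΓ => ?_, fun P hP => ⟨fun h X hX hG _ _ => h X hX hG, fun h => ?_⟩,
    fun hp2 P hP => ⟨fun h X hX hG _ ho Γ hΓ hS => ?_, fun h => ?_⟩⟩
  · have := hX.fin
    have := Fintype.ofFinite X.G
    exact ⟨mix_brauer hpO hX h, fun τ hτ => gal_mixB hX (hΓ τ hτ), bij_mix hpO hX h hΓ,
      fun h' => numConj_lt hX.block.irr h' h⟩
  · refine induct (P := fun X => P X.G → X.Bij p (HB p X : Set (ℂ ≃+* ℂ))) hpO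
      (fun X hX σ h1 _ hm hG => AMN_of_mix hpO hX h1 (hm (hP X.G hG))) fun X hX ho hG => ?_
    have := hX.fin
    have := Fintype.ofFinite X.G
    exact h X hX hG (real_of_odd hX.block.irr ho) ho
  · have h1 := (bij_iff X hX Γ hS).mp (h X hX hG Γ hΓ hS) Γ le_rfl
    have h2 := (parity hX ho (Γ : Set (ℂ ≃+* ℂ))).symm
    rw [h1] at h2
    exact h2.trans (parity' hpO hX ho _)
  · exact bij_of_parity hp2 hpO hP h

end Pool.Agent.Results.MP_7f1e7e_al.OddlyManyConjugates
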