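import Pool.Agent.Q259.BW.Bij

/-!
# Alperin–McKay–Navarro for groups of odd order is a statement about parity

`O` is a valuation subring of `ℂ` whose maximal ideal contains the odd prime `p`; it defines the
`p`-blocks of finite groups. If a group `Γ` of field automorphisms stabilises a block `B` with defect
group `D ≠ 1` and its Brauer correspondent `b` and acts with odd order on the characters of height
zero, then it fixes `(x² + 3x)/2` characters of height zero in the block of `G ≀ C₂` above `B`, where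
`x` is the number of those it fixes in `B`; the same holds for `b`.
-/

set_option autoImplicit false

namespace Pool.Agent.Results.MP_7f1e7e_al.ParityDecidesBlocks

open Pool.Agent.Q259.BW

/-- The field automorphisms `σ` which for every `m` prime to `p` act on the `m`-th roots of unity as
`ξ ↦ ξ ^ (p ^ e)` for some `e ≥ 0`: those with restrictions in Navarro's group `𝓗`. -/
def NavarroH (p : ℕ) : Set (ℂ ≃+* ℂ) :=
  {σ | ∀ m : ℕ, ¬ p ∣ m → ∃ e : ℕ, ∀ ξ : ℂ, ξ ^ m = 1 → σ ξ = ξ ^ p ^ e}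

/-- Let `p` be an odd prime. (1) Let `B` be a `p`-block with defect group `D ≠ 1` and Brauer
correspondent `b`, and `Γ` a group of field automorphisms stabilising `B` and `b` of which every
element acts with odd order on the characters of height zero. The sets of characters obtained from
`B` and `b` in the iterated wreath products with `C₂` are again a block and its Brauer correspondent,
and there is a `Γ`-equivariant bijection `Irr₀(B) → Irr₀(b)` if and only if for all subgroups `Δ` of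
`Γ` and all `j` with `2^j ≤ max(|Irr₀(B)|, |Irr₀(b)|)` the numbers of `Δ`-fixed characters of height
zero in these blocks of the `j`-fold iterated wreath products have the same parity.
(2) Such bijections exist for all blocks `B` and all such `Γ` in Navarro's group `𝓗` if and only if
for all of them the numbers of `Γ`-fixed characters in `Irr₀(B)` and `Irr₀(b)` have the same
parity. -/
theorem result (p : ℕ) [Fact p.Prime] (hp2 : p ≠ 2) (O : ValuationSubring ℂ)
    (hpO : (p : ℂ) ∈ O.nonunits) :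
    (∀ X : Dat, X.IsBrauer p O → X.D ≠ ⊥ → ∀ Γ : Subgroup (ℂ ≃+* ℂ),
      X.Adm p (Γ : Set (ℂ ≃+* ℂ)) →
      (∀ j : ℕ, (Dat.wr^[j] X).IsBrauer p O) ∧
      (X.Bij p Γ ↔ ∀ Δ : Subgroup (ℂ ≃+* ℂ), Δ ≤ Γ → ∀ j : ℕ,
        2 ^ j ≤ max (Nat.card (X.ht0 p)) (Nat.card (X.ht0' p)) →
        Nat.card (Fx (Δ : Set (ℂ ≃+* ℂ)) ((Dat.wr^[j] X).ht0 p)) ≡
          Nat.card (Fx (Δ : Set (ℂ ≃+* ℂ)) ((Dat.wr^[j] X).ht0' p)) [MOD 2])) ∧
    ((∀ X : Dat, X.IsBrauer p O → ∀ Γ : Subgroup (ℂ ≃+* ℂ),
      (Γ : Set (ℂ ≃+* ℂ)) ⊆ NavarroH p → X.Adm p (Γ : Set (ℂ ≃+* ℂ)) → X.Bij p Γ) ↔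
    ∀ X : Dat, X.IsBrauer p O → ∀ Γ : Subgroup (ℂ ≃+* ℂ),
      (Γ : Set (ℂ ≃+* ℂ)) ⊆ NavarroH p → X.Adm p (Γ : Set (ℂ ≃+* ℂ)) →
      Nat.card (Fx (Γ : Set (ℂ ≃+* ℂ)) (X.ht0 p)) ≡
        Nat.card (Fx (Γ : Set (ℂ ≃+* ℂ)) (X.ht0' p)) [MOD 2]) :=
  ⟨fun X hX hne Γ hS => ⟨fun j => (levels_prop hp2 hpO _ j X hX hne hS).1,
    one_block hp2 hpO X hX hne Γ hS⟩, all_blocks hp2 hpO (NavarroH p)⟩

end Pool.Agent.Results.MP_7f1e7e_al.ParityDecidesBlocks
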