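import Pool.Agent.RBS52.Fin

/-!
# Alperin–McKay–Navarro follows from the case of real blocks

`O` is a valuation subring of `ℂ` whose maximal ideal contains the prime `p`; it defines the
`p`-blocks of finite groups. Let `B` be a block of `G` which is different from its complex conjugate
`B*`. The characters of `G ≀ C₂` induced from the characters in `B × B*` form a real block, and an
automorphism `σ` of `ℂ` which stabilises `B` fixes the character induced from `θ₁ × θ₂` if and only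
if it fixes `θ₁` and `θ₂`.
-/

set_option autoImplicit false

namespace Pool.Agent.Results.MP_7f1e7e_al.RealBlocksSuffice

open Pool.Agent.Q259.BW Pool.Agent.Q288.AP Pool.Agent.RBS52

open Pool.Agent.Q90.WR (Wr)

/-- The field automorphisms `σ` which for every `m` prime to `p` act on the `m`-th roots of unity as
`ξ ↦ ξ ^ (p ^ e)` for some `e ≥ 0`: those with restrictions in Navarro's group `𝓗`. -/
def NavarroH (p : ℕ) : Set (ℂ ≃+* ℂ) :=
  {σ | ∀ m : ℕ, ¬ p ∣ m → ∃ e : ℕ, ∀ ξ : ℂ, ξ ^ m = 1 → σ ξ = ξ ^ p ^ e}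

/-- The group `Γ` of field automorphisms stabilises the block `B` and its Brauer correspondent. -/
def Stable (Γ : Subgroup (ℂ ≃+* ℂ)) (X : Dat) : Prop :=
  StableS (Γ : Set (ℂ ≃+* ℂ)) X.B ∧ StableS (Γ : Set (ℂ ≃+* ℂ)) X.b

/-- a class of groups closed under `G ↦ G ≀ C₂` -/
def Closed (P : ∀ (G : Type) [Group G], Prop) : Prop := ∀ (G : Type) [Group G], P G → P (Wr G)

/-- Let `p` be a prime. (1) Let `B` be a block which is not real and `Γ` a group of field
automorphisms stabilising `B` and its Brauer correspondent `b`. Then the data `mx X` (the group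
`G ≀ C₂`) is a real block with its Brauer correspondent, `Γ` stabilises both, and there is a
`Γ`-equivariant bijection `Irr₀(B) → Irr₀(b)` if and only if there is one for `mx X`.
(2) In every class of groups closed under `G ↦ G ≀ C₂`: `Γ`-equivariant bijections exist for all
`p`-blocks of the finite groups in the class and all such groups `Γ` of automorphisms in Navarro's
group `𝓗` if and only if they exist for the real blocks. -/
theorem result (p : ℕ) [Fact p.Prime] (O : ValuationSubring ℂ) (hpO : (p : ℂ) ∈ O.nonunits) :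
    (∀ X : Dat, X.IsBrauer p O → ¬ IsReal X → ∀ Γ : Subgroup (ℂ ≃+* ℂ), Stable Γ X →
      (mx X).IsBrauer p O ∧ IsReal (mx X) ∧ Stable Γ (mx X) ∧
        (X.Bij p (Γ : Set (ℂ ≃+* ℂ)) ↔ (mx X).Bij p (Γ : Set (ℂ ≃+* ℂ)))) ∧
    (∀ P : ∀ (G : Type) [Group G], Prop, Closed P →
      ((∀ X : Dat, X.IsBrauer p O → P X.G → ∀ Γ : Subgroup (ℂ ≃+* ℂ),
          (Γ : Set (ℂ ≃+* ℂ)) ⊆ NavarroH p → Stable Γ X → X.Bij p (Γ : Set (ℂ ≃+* ℂ))) ↔
        ∀ X : Dat, X.IsBrauer p O → P X.G → IsReal X → ∀ Γ : Subgroup (ℂ ≃+* ℂ),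
          (Γ : Set (ℂ ≃+* ℂ)) ⊆ NavarroH p → Stable Γ X → X.Bij p (Γ : Set (ℂ ≃+* ℂ)))) := by
  have hst : ∀ X : Dat, X.IsBrauer p O → ∀ Γ : Subgroup (ℂ ≃+* ℂ), Stable Γ X →
      Stable Γ (mx X) := by
    intro X hX Γ hS
    have := hX.fin
    have := Fintype.ofFinite X.G
    have := Fintype.ofFinite (Subgroup.normalizer (X.D : Set X.G))
    exact ⟨stable_MxS hS.1 (stable_dual hS.1), stable_pull _ (stable_MxS hS.2 (stable_dual hS.2))⟩
  have hbij : ∀ X : Dat, X.IsBrauer p O → ∀ Γ : Subgroup (ℂ ≃+* ℂ), Stable Γ X →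
      (X.Bij p (Γ : Set (ℂ ≃+* ℂ)) ↔ ∀ Δ : Subgroup (ℂ ≃+* ℂ), Δ ≤ Γ →
        Nat.card (Fx (Δ : Set (ℂ ≃+* ℂ)) (X.ht0 p)) =
          Nat.card (Fx (Δ : Set (ℂ ≃+* ℂ)) (X.ht0' p))) := by
    intro X hX Γ hS
    have := hX.fin
    constructor
    · intro h Δ hΔ
      exact num_of_bij h hΔ
    · intro h
      exact bij_of_num (finite_of_irr (ht0_irr hX)) (finite_of_irr (ht0'_irr hX))
        (stable_ht0 hS.1) (stable_ht0 hS.2) h
  have key : ∀ X : Dat, X.IsBrauer p O → ¬ IsReal X → ∀ Γ : Subgroup (ℂ ≃+* ℂ), Stable Γ X →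
      (X.Bij p (Γ : Set (ℂ ≃+* ℂ)) ↔ (mx X).Bij p (Γ : Set (ℂ ≃+* ℂ))) := by
    intro X hX hr Γ hS
    rw [hbij X hX Γ hS, hbij (mx X) (mx_brauer hpO hX hr) Γ (hst X hX Γ hS)]
    refine forall₂_congr fun Δ hΔ => ?_
    exact (eq_of_mx hpO hX hr (fun σ hσ => hS.1 σ (hΔ hσ)) (fun σ hσ => hS.2 σ (hΔ hσ))).symm
  refine ⟨fun X hX hr Γ hS => ⟨mx_brauer hpO hX hr, mx_real X hX, hst X hX Γ hS, key X hX hr Γ hS⟩,
    fun P hP => ⟨fun h X hX hG _ => h X hX hG, fun h X hX hG Γ hΓ hS => ?_⟩⟩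
  by_cases hr : IsReal X
  · exact h X hX hG hr Γ hΓ hS
  · exact (key X hX hr Γ hS).2 (h (mx X) (mx_brauer hpO hX hr) (hP X.G hG) (mx_real X hX) Γ hΓ
      (hst X hX Γ hS))

end Pool.Agent.Results.MP_7f1e7e_al.RealBlocksSuffice
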